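import Mathlib
import Pool.Agent.Q166.ExcSgn
import Pool.Agent.Q166.ExcRoots

/-!
# MP_b94b02_co: real-rootedness of the excedance polynomials of even and odd permutations

`A^+_n` and `A^-_n` are real-rooted for every `n ≥ 6`; for `n = 5` the polynomial
`A^+_5 = 1 + 11 t + 36 t^2 + 11 t^3 + t^4` has no real root at all, and `A^-_5` is real-rooted.

Proof for `n ≥ 6`: `2 A^±_n = A_n ± (1 - t)^(n-1)`.  The functions `f_n = A_n/(1-t)^(n+1)` satisfy
`f_{n+1} = (t f_n)'`, so (Rolle) if `f_n` takes alternately values `≤ -1` and `≥ 1` at points of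
`(-1, 0)`, then so does `f_{n+1}`; the value at `t = -1` is a tangent number.  Here this is carried
out in the variable `w = (1 + t)/(1 - t)`.
-/

set_option autoImplicit false

namespace Pool.Agent.Results.MP_b94b02_co.RealRooted

open Polynomial Pool.Agent.H24R3.Eul Q166.SyncIneq Q166.SyncCore Q166.ExcRoots

open Q166.ExcSgn (PExc_eq QExc_eq)

/-- `A^+_n(t)`: even permutations by excedances -/
noncomputable def ExcPlus (n : ℕ) : ℝ[X] := ∑ k ∈ Finset.range (n + 1), C (PExc n k : ℝ) * X ^ k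

/-- `A^-_n(t)`: odd permutations by excedances -/
noncomputable def ExcMinus (n : ℕ) : ℝ[X] := ∑ k ∈ Finset.range (n + 1), C (QExc n k : ℝ) * X ^ k

/-- a non-zero polynomial all of whose complex roots are real -/
def IsRealRooted (p : ℝ[X]) : Prop := p ≠ 0 ∧ ∀ z : ℂ, aeval z p = 0 → z.im = 0

/-- the Eulerian polynomial of `N + 1` elements -/
noncomputable def EA (N : ℕ) : ℝ[X] := ∑ k ∈ Finset.range (N + 1), C (E N k : ℝ) * X ^ k

theorem coeff_EA (N k : ℕ) : (EA N).coeff k = (E N k : ℝ) := by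
  unfold EA
  rw [finsetSum_coeff]
  simp only [coeff_C_mul, coeff_X_pow]
  rw [Finset.sum_eq_single k]
  · simp
  · intro j _ hj
    rw [if_neg (fun h => hj h.symm), mul_zero]
  · intro h
    rw [Finset.mem_range, not_lt] at h
    rw [E_big N k (by omega)]; simp

theorem EA_succ (N : ℕ) : EA (N + 1) = (1 + C ((N : ℝ) + 1) * X) * EA N +
    X * (1 - X) * derivative (EA N) := by
  ext k
  rw [coeff_EA, show (1 + C ((N : ℝ) + 1) * X) * EA N + X * (1 - X) * derivative (EA N) =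
    EA N + C ((N : ℝ) + 1) * (X * EA N) + X * derivative (EA N) -
      X * (X * derivative (EA N)) by ring]
  rw [coeff_sub, coeff_add, coeff_add, coeff_C_mul, coeff_X_mul_derivative]
  cases k with
  | zero => simp [coeff_EA, E_zero]
  | succ k =>
    rw [coeff_X_mul, coeff_X_mul, coeff_X_mul_derivative, coeff_EA, coeff_EA, E_rec']
    push_cast; ring

theorem EA_eq (N : ℕ) : ∀ z : ℂ, z ≠ 1 →
    aeval z (EA N) = (1 - z) ^ N * aeval ((1 + z) / (1 - z)) (G N) := by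
  induction N with
  | zero =>
    intro z _
    rw [show G 0 = 1 from rfl]
    unfold EA
    simp [E_zero]
  | succ N ih =>
    intro z hz
    have hz1 : 1 - z ≠ 0 := fun h => hz (by linear_combination -h)
    have hd1 : HasDerivAt (fun z : ℂ => aeval z (EA N)) (aeval z (derivative (EA N))) z :=
      (EA N).hasDerivAt_aeval z
    have hw : HasDerivAt (fun z : ℂ => (1 + z) / (1 - z)) (2 / (1 - z) ^ 2) z := by
      have a1 : HasDerivAt (fun z : ℂ => 1 + z) 1 z := by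
        simpa using (hasDerivAt_id z).const_add 1
      have a2 : HasDerivAt (fun z : ℂ => 1 - z) (-1) z := by
        simpa using (hasDerivAt_id z).const_sub 1
      refine (a1.div a2 hz1).congr_deriv ?_
      ring
    have hg : HasDerivAt (fun z : ℂ => aeval ((1 + z) / (1 - z)) (G N))
        (aeval ((1 + z) / (1 - z)) (derivative (G N)) * (2 / (1 - z) ^ 2)) z :=
      ((G N).hasDerivAt_aeval _).comp z hw
    have hp : HasDerivAt (fun z : ℂ => (1 - z) ^ N) (N * (1 - z) ^ (N - 1) * (-1)) z := by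
      have a2 : HasDerivAt (fun z : ℂ => 1 - z) (-1) z := by
        simpa using (hasDerivAt_id z).const_sub 1
      exact a2.pow N
    have hd2 := hp.mul hg
    have hev : (fun z : ℂ => aeval z (EA N)) =ᶠ[nhds z]
        fun z : ℂ => (1 - z) ^ N * aeval ((1 + z) / (1 - z)) (G N) := by
      filter_upwards [isOpen_ne.mem_nhds hz] with y hy
      exact ih y hy
    have hD := hd1.unique (hd2.congr_of_eventuallyEq hev)
    rw [EA_succ, G_succ]
    simp only [map_add, map_mul, map_sub, map_one, aeval_X, aeval_C, map_pow]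
    rw [hD, ih z hz]
    have hN : (N : ℂ) * (1 - z) ^ (N - 1) * (1 - z) = N * (1 - z) ^ N := by
      cases N with
      | zero => simp
      | succ N => rw [Nat.add_sub_cancel, pow_succ]; ring
    set g := aeval ((1 + z) / (1 - z)) (G N)
    set g' := aeval ((1 + z) / (1 - z)) (derivative (G N))
    have e1 : (algebraMap ℝ ℂ) (N : ℝ) = (N : ℂ) := by simp
    have e2 : (algebraMap ℝ ℂ) (1 / 2) = 1 / 2 := by simp
    rw [e1, e2]
    have e3 : z * (1 - z) * ((N : ℂ) * (1 - z) ^ (N - 1) * (-1) * g +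
        (1 - z) ^ N * (g' * (2 / (1 - z) ^ 2))) =
        -(z * (N * (1 - z) ^ N) * g) + (1 - z) ^ N * (2 * z / (1 - z)) * g' := by
      rw [← hN]
      field_simp
    rw [e3, pow_succ]
    field_simp
    ring

theorem one_sub_pow (N : ℕ) : ((1 : ℝ[X]) - X) ^ N =
    ∑ k ∈ Finset.range (N + 1), C ((-1) ^ k * (N.choose k : ℝ)) * X ^ k := by
  rw [show (1 : ℝ[X]) - X = -X + 1 by ring, add_pow]
  apply Finset.sum_congr rfl
  intro k _
  rw [one_pow, mul_one, neg_pow, C_mul, C_pow, C_neg, C_1]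
  rw [show (C (N.choose k : ℝ) : ℝ[X]) = (N.choose k : ℝ[X]) by simp]
  ring

theorem ExcPlus_eq (N : ℕ) : C 2 * ExcPlus (N + 1) = EA N + (1 - X) ^ N := by
  rw [one_sub_pow]
  unfold ExcPlus EA
  rw [Finset.sum_range_succ, mul_add, Finset.mul_sum,
    ← Finset.sum_add_distrib]
  have h := PExc_eq N (N + 1)
  rw [E_big N (N + 1) (by omega), Nat.choose_eq_zero_of_lt (by omega : N < N + 1)] at h
  have h0 : (PExc (N + 1) (N + 1) : ℝ) = 0 := by
    have : (PExc (N + 1) (N + 1) : ℤ) = 0 := by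
      have : 2 * (PExc (N + 1) (N + 1) : ℤ) = 0 := by rw [h]; simp
      omega
    exact_mod_cast this
  rw [h0, C_0, zero_mul, mul_zero, add_zero]
  apply Finset.sum_congr rfl
  intro k _
  have h1 : (2 : ℝ) * (PExc (N + 1) k : ℝ) = (E N k : ℝ) + (-1) ^ k * (N.choose k : ℝ) := by
    exact_mod_cast PExc_eq N k
  rw [← mul_assoc, ← C_mul, h1, C_add, add_mul]

theorem ExcMinus_eq (N : ℕ) : C 2 * ExcMinus (N + 1) = EA N - (1 - X) ^ N := by
  rw [one_sub_pow]
  unfold ExcMinus EA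
  rw [Finset.sum_range_succ, mul_add, Finset.mul_sum,
    ← Finset.sum_sub_distrib]
  have h := QExc_eq N (N + 1)
  rw [E_big N (N + 1) (by omega), Nat.choose_eq_zero_of_lt (by omega : N < N + 1)] at h
  have h0 : (QExc (N + 1) (N + 1) : ℝ) = 0 := by
    have : (QExc (N + 1) (N + 1) : ℤ) = 0 := by
      have : 2 * (QExc (N + 1) (N + 1) : ℤ) = 0 := by rw [h]; simp
      omega
    exact_mod_cast this
  rw [h0, C_0, zero_mul, mul_zero, add_zero]
  apply Finset.sum_congr rfl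
  intro k _
  have h1 : (2 : ℝ) * (QExc (N + 1) k : ℝ) = (E N k : ℝ) - (-1) ^ k * (N.choose k : ℝ) := by
    exact_mod_cast QExc_eq N k
  rw [← mul_assoc, ← C_mul, h1, C_sub, sub_mul]

theorem EA_one_pos (N : ℕ) : 0 < (EA N).eval 1 := by
  unfold EA
  rw [eval_finsetSum]
  simp only [eval_mul, eval_C, eval_pow, eval_X, one_pow, mul_one]
  have h : (1 : ℝ) ≤ ∑ k ∈ Finset.range (N + 1), (E N k : ℝ) := by
    calc (1 : ℝ) = (E N 0 : ℝ) := by rw [E_zero]; simp
      _ ≤ _ := Finset.single_le_sum (f := fun k => (E N k : ℝ))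
        (fun k _ => by exact_mod_cast E_nonneg N k) (Finset.mem_range.2 (by omega))
  linarith

theorem key (N : ℕ) (hN : 5 ≤ N) (p : ℝ[X]) (ε : ℝ) (hε : |ε| = 1)
    (hp : C 2 * p = EA N + C ε * (1 - X) ^ N) : IsRealRooted p := by
  have hone : (C 2 * p).eval 1 = (EA N).eval 1 := by
    rw [hp]
    simp only [eval_add, eval_mul, eval_C, eval_pow, eval_sub, eval_one, eval_X, sub_self]
    rw [zero_pow (by omega)]; ring
  constructor
  · rintro rfl
    rw [mul_zero, eval_zero] at hone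
    have := EA_one_pos N
    rw [← hone] at this
    exact lt_irrefl _ this
  · intro z hz
    have h1 : aeval z (C 2 * p) = 0 := by rw [map_mul, hz, mul_zero]
    by_cases hz1 : z = 1
    · rw [hz1]; exact Complex.one_im
    have h2 := h1
    rw [hp, map_add, map_mul, map_pow, EA_eq N z hz1] at h2
    simp only [map_sub, map_one, aeval_X, aeval_C] at h2
    have hz2 : 1 - z ≠ 0 := fun h => hz1 (by linear_combination -h)
    have h3 : (1 - z) ^ N * (aeval ((1 + z) / (1 - z)) (G N + C ε)) = 0 := by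
      rw [map_add, aeval_C, mul_add]
      linear_combination h2
    rcases mul_eq_zero.1 h3 with h4 | h4
    · exact absurd h4 (pow_ne_zero _ hz2)
    · have h5 := G_real N hN ε hε _ h4
      obtain ⟨r, hr⟩ : ∃ r : ℝ, (1 + z) / (1 - z) = (r : ℂ) :=
        ⟨((1 + z) / (1 - z)).re, Complex.ext rfl (by rw [h5]; exact (Complex.ofReal_im _).symm)⟩
      rw [div_eq_iff hz2] at hr
      have h6 : z * ((r : ℂ) + 1) = (r : ℂ) - 1 := by linear_combination hr
      have h7 : ((r : ℂ) + 1) ≠ 0 := by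
        intro h
        have hr1 : (r : ℂ) = -1 := by linear_combination h
        rw [hr1] at h6
        norm_num at h6
      have h8 : z = (((r - 1) / (r + 1) : ℝ) : ℂ) := by
        push_cast
        rw [eq_div_iff h7]
        exact h6
      rw [h8]
      exact Complex.ofReal_im _

theorem small5 : (PExc 5 0 = 1 ∧ PExc 5 1 = 11 ∧ PExc 5 2 = 36 ∧ PExc 5 3 = 11 ∧ PExc 5 4 = 1 ∧
      PExc 5 5 = 0) ∧
    (QExc 5 0 = 0 ∧ QExc 5 1 = 15 ∧ QExc 5 2 = 30 ∧ QExc 5 3 = 15 ∧ QExc 5 4 = 0 ∧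
      QExc 5 5 = 0) := by
  have f2 : (-1 : ℤ) ^ 2 = 1 := by norm_num
  have f3 : (-1 : ℤ) ^ 3 = -1 := by norm_num
  have f4 : (-1 : ℤ) ^ 4 = 1 := by norm_num
  have r0 : 2 * (PExc 5 0 : ℤ) = E 4 0 + (-1) ^ 0 * (Nat.choose 4 0 : ℤ) := PExc_eq 4 0
  have r1 : 2 * (PExc 5 1 : ℤ) = E 4 1 + (-1) ^ 1 * (Nat.choose 4 1 : ℤ) := PExc_eq 4 1
  have r2 : 2 * (PExc 5 2 : ℤ) = E 4 2 + (-1) ^ 2 * (Nat.choose 4 2 : ℤ) := PExc_eq 4 2
  have r3 : 2 * (PExc 5 3 : ℤ) = E 4 3 + (-1) ^ 3 * (Nat.choose 4 3 : ℤ) := PExc_eq 4 3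
  have r4 : 2 * (PExc 5 4 : ℤ) = E 4 4 + (-1) ^ 4 * (Nat.choose 4 4 : ℤ) := PExc_eq 4 4
  have r5 : 2 * (PExc 5 5 : ℤ) = E 4 5 + (-1) ^ 5 * (Nat.choose 4 5 : ℤ) := PExc_eq 4 5
  have t0 : 2 * (QExc 5 0 : ℤ) = E 4 0 - (-1) ^ 0 * (Nat.choose 4 0 : ℤ) := QExc_eq 4 0
  have t1 : 2 * (QExc 5 1 : ℤ) = E 4 1 - (-1) ^ 1 * (Nat.choose 4 1 : ℤ) := QExc_eq 4 1
  have t2 : 2 * (QExc 5 2 : ℤ) = E 4 2 - (-1) ^ 2 * (Nat.choose 4 2 : ℤ) := QExc_eq 4 2
  have t3 : 2 * (QExc 5 3 : ℤ) = E 4 3 - (-1) ^ 3 * (Nat.choose 4 3 : ℤ) := QExc_eq 4 3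
  have t4 : 2 * (QExc 5 4 : ℤ) = E 4 4 - (-1) ^ 4 * (Nat.choose 4 4 : ℤ) := QExc_eq 4 4
  have t5 : 2 * (QExc 5 5 : ℤ) = E 4 5 - (-1) ^ 5 * (Nat.choose 4 5 : ℤ) := QExc_eq 4 5
  have e11 : E 1 1 = 1 := E_top 1
  have e21 : E 2 1 = 4 := by rw [E_one, e11]; norm_num
  have e31 : E 3 1 = 11 := by rw [E_one, e21]; norm_num
  have e41 : E 4 1 = 26 := by rw [E_one, e31]; norm_num
  have e22 : E 2 2 = 1 := E_top 2
  have e32 : E 3 2 = 11 := by rw [E_two, e22, e21]; norm_num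
  have e42 : E 4 2 = 66 := by rw [E_two, e32, e31]; norm_num
  have e43 : E 4 3 = 26 := by rw [← e41]; exact (E_symm 4 3 (by omega)).symm
  have e45 : E 4 5 = 0 := E_big 4 5 (by omega)
  have c0 : ((Nat.choose 4 0 : ℕ) : ℤ) = 1 := by norm_num [Nat.choose]
  have c1 : ((Nat.choose 4 1 : ℕ) : ℤ) = 4 := by norm_num [Nat.choose]
  have c2 : ((Nat.choose 4 2 : ℕ) : ℤ) = 6 := by norm_num [Nat.choose]
  have c3 : ((Nat.choose 4 3 : ℕ) : ℤ) = 4 := by norm_num [Nat.choose]
  have c4 : ((Nat.choose 4 4 : ℕ) : ℤ) = 1 := by norm_num [Nat.choose]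
  have c5 : ((Nat.choose 4 5 : ℕ) : ℤ) = 0 := by norm_num [Nat.choose]
  rw [E_zero, c0] at r0 t0
  rw [e41, c1] at r1 t1
  rw [e42, c2, f2] at r2 t2
  rw [e43, c3, f3] at r3 t3
  rw [E_top, c4, f4] at r4 t4
  rw [e45, c5] at r5 t5
  simp only [pow_zero, pow_one, one_mul, mul_zero, add_zero, sub_zero] at *
  omega

theorem plus5 : ExcPlus 5 = 1 + C 11 * X + C 36 * X ^ 2 + C 11 * X ^ 3 + X ^ 4 := by
  obtain ⟨⟨a0, a1, a2, a3, a4, a5⟩, _⟩ := small5
  unfold ExcPlus
  simp only [Finset.sum_range_succ, Finset.sum_range_zero, a0, a1, a2, a3, a4, a5]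
  simp

theorem minus5 : ExcMinus 5 = C 15 * (X * (1 + X) ^ 2) := by
  obtain ⟨_, a0, a1, a2, a3, a4, a5⟩ := small5
  unfold ExcMinus
  simp only [Finset.sum_range_succ, Finset.sum_range_zero, a0, a1, a2, a3, a4, a5]
  rw [show (C ((30 : ℕ) : ℝ) : ℝ[X]) = 2 * C 15 by
    rw [show (2 : ℝ[X]) = C 2 by rfl, ← C_mul]; norm_num]
  simp
  ring

/-- `A^+_n` and `A^-_n` are real-rooted for every `n ≥ 6`; `A^+_5` is not real-rooted and `A^-_5`
is. -/
theorem result : (∀ n : ℕ, 6 ≤ n → IsRealRooted (ExcPlus n) ∧ IsRealRooted (ExcMinus n)) ∧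
    ¬ IsRealRooted (ExcPlus 5) ∧ IsRealRooted (ExcMinus 5) := by
  refine ⟨?_, ?_, ?_⟩
  · intro n hn
    obtain ⟨N, rfl⟩ : ∃ N, n = N + 1 := ⟨n - 1, by omega⟩
    constructor
    · apply key N (by omega) _ 1 (by simp)
      rw [ExcPlus_eq, C_1, one_mul]
    · apply key N (by omega) _ (-1) (by simp)
      rw [ExcMinus_eq, C_neg, C_1]; ring
  · rintro ⟨h1, h2⟩
    have hdeg : (ExcPlus 5).degree ≠ 0 := by
      intro h
      have h3 : (ExcPlus 5).coeff 1 = 0 := by
        apply coeff_eq_zero_of_degree_lt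
        rw [h]; norm_num
      rw [plus5] at h3
      simp [coeff_one, coeff_X_pow] at h3
    obtain ⟨z, hz⟩ := IsAlgClosed.exists_aeval_eq_zero ℂ (ExcPlus 5) hdeg
    have h3 := h2 z hz
    have hz2 : z = ((z.re : ℝ) : ℂ) := Complex.ext rfl (by rw [h3]; exact (Complex.ofReal_im _).symm)
    rw [hz2, plus5] at hz
    simp only [map_add, map_mul, map_one, aeval_X, aeval_C, map_pow] at hz
    have h4 : 1 + 11 * z.re + 36 * z.re ^ 2 + 11 * z.re ^ 3 + z.re ^ 4 = 0 := by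
      have h5 : (((1 + 11 * z.re + 36 * z.re ^ 2 + 11 * z.re ^ 3 + z.re ^ 4 : ℝ)) : ℂ) = 0 := by
        rw [← hz]; push_cast; rfl
      exact_mod_cast h5
    have h6 : z.re ^ 2 = 0 := by
      have a1 := sq_nonneg (z.re ^ 2 + 11 / 2 * z.re + 1)
      have a2 := sq_nonneg z.re
      nlinarith
    have h7 : z.re = 0 := by simpa using h6
    rw [h7] at h4
    norm_num at h4
  · rw [minus5]
    constructor
    · intro h
      have := congrArg (fun p : ℝ[X] => p.eval 1) h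
      norm_num at this
    · intro z hz
      simp only [map_add, map_mul, map_one, aeval_X, aeval_C, map_pow] at hz
      have h15 : (algebraMap ℝ ℂ) 15 ≠ 0 := by simp
      rcases mul_eq_zero.1 hz with h | h
      · exact absurd h h15
      · rcases mul_eq_zero.1 h with h | h
        · rw [h]; exact Complex.zero_im
        · have h2 : z = -1 := by linear_combination pow_eq_zero_iff (two_ne_zero) |>.1 h
          rw [h2]; simp

end Pool.Agent.Results.MP_b94b02_co.RealRooted
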